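import Pool.Agent.K3h46.HP.Stm

/-!
# The partial trace of the symmetric power
-/

set_option autoImplicit false

open Finset

namespace Pool.Agent.K3h91.HP

open Pool.Agent.K3h46.HP

section glue

variable {N : ℕ}

theorem gl_last : gluePerm N (Fin.castAdd (N + 1) (Fin.last N)) = Fin.last (N + N) := by
  unfold gluePerm
  rw [Fin.addCases_left, Fin.lastCases_last]

theorem gl_cast (i : Fin N) : gluePerm N (Fin.castAdd (N + 1) i.castSucc) =
    (Fin.castAdd N i).castSucc := by
  unfold gluePerm
  rw [Fin.addCases_left, Fin.lastCases_castSucc]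

theorem gr_last : gluePerm N (Fin.natAdd (N + 1) (Fin.last N)) = Fin.last (N + N) := by
  unfold gluePerm
  rw [Fin.addCases_right, Fin.lastCases_last]

theorem gr_cast (i : Fin N) : gluePerm N (Fin.natAdd (N + 1) i.castSucc) =
    (Fin.natAdd N i).castSucc := by
  unfold gluePerm
  rw [Fin.addCases_right, Fin.lastCases_castSucc]

end glue

/-- the permutations of `N + 1` letters -/
def Φ (N : ℕ) : Option (Fin N) × Equiv.Perm (Fin N) ≃ Equiv.Perm (Fin (N + 1)) :=
  Equiv.Perm.decomposeOption.symm.trans (finSuccEquivLast (n := N)).symm.permCongr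

theorem Φ_last {N : ℕ} (x : Option (Fin N)) (τ : Equiv.Perm (Fin N)) :
    Φ N (x, τ) (Fin.last N) = (finSuccEquivLast (n := N)).symm x := by
  simp [Φ, Equiv.permCongr_apply, Equiv.Perm.decomposeOption]

theorem Φ_none {N : ℕ} (τ : Equiv.Perm (Fin N)) (i : Fin N) :
    Φ N (none, τ) i.castSucc = (τ i).castSucc := by
  simp [Φ, Equiv.permCongr_apply, Equiv.Perm.decomposeOption]

theorem Φ_some {N : ℕ} (v : Fin N) (τ : Equiv.Perm (Fin N)) (i : Fin N) :
    Φ N (some v, τ) i.castSucc = if τ i = v then Fin.last N else (τ i).castSucc := by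
  by_cases h : τ i = v
  · rw [if_pos h]
    simp [Φ, Equiv.permCongr_apply, Equiv.Perm.decomposeOption, h]
  · rw [if_neg h]
    have h1 : (Equiv.swap none (some v)) (some (τ i)) = some (τ i) := by
      apply Equiv.swap_apply_of_ne_of_ne
      · simp
      · intro h2
        exact h (Option.some.inj h2)
    simp [Φ, Equiv.permCongr_apply, Equiv.Perm.decomposeOption, h1]

theorem t_PTR : StmPTR := by
  intro X w t h N
  have e1 : X.pull (gluePerm N) (X.symPower w (N + 1)) =
      ∑ x : Option (Fin N) × Equiv.Perm (Fin N), ∏ i : Fin (N + 1),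
        X.edge w (gluePerm N (Fin.castAdd (N + 1) i)) (gluePerm N (Fin.natAdd (N + 1) (Φ N x i))) := by
    unfold Powers.symPower
    rw [map_sum, ← Equiv.sum_comp (Φ N)]
    refine Finset.sum_congr rfl fun x _ => ?_
    rw [map_prod]
    exact Finset.prod_congr rfl fun i _ => pull_edge X w _ _ _
  have e2 : ∀ x : Option (Fin N) × Equiv.Perm (Fin N),
      X.push (N + N) (∏ i : Fin (N + 1),
        X.edge w (gluePerm N (Fin.castAdd (N + 1) i))
          (gluePerm N (Fin.natAdd (N + 1) (Φ N x i)))) =
      (if x.1 = none then t else 1) •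
        ∏ i : Fin N, X.edge w (Fin.castAdd N i) (Fin.natAdd N (x.2 i)) := by
    rintro ⟨x, τ⟩
    rw [Fin.prod_univ_castSucc, gl_last, Φ_last]
    rcases x with _ | v
    · rw [finSuccEquivLast_symm_none, gr_last, if_pos rfl]
      have e3 : ∏ i : Fin N, X.edge w (gluePerm N (Fin.castAdd (N + 1) i.castSucc))
          (gluePerm N (Fin.natAdd (N + 1) (Φ N (none, τ) i.castSucc))) =
          X.pull Fin.castSucc (∏ i : Fin N, X.edge w (Fin.castAdd N i) (Fin.natAdd N (τ i))) := by
        rw [map_prod]
        refine Finset.prod_congr rfl fun i _ => ?_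
        rw [gl_cast, Φ_none, gr_cast, pull_edge]
      rw [e3]
      exact push_loop X h _
    · rw [finSuccEquivLast_symm_some, gr_cast, if_neg (by simp), one_smul]
      set u := τ.symm v with hu
      have huv : τ u = v := by rw [hu, Equiv.apply_symm_apply]
      have e3 : ∏ i : Fin N, X.edge w (gluePerm N (Fin.castAdd (N + 1) i.castSucc))
          (gluePerm N (Fin.natAdd (N + 1) (Φ N (some v, τ) i.castSucc))) =
          X.edge w (Fin.castAdd N u).castSucc (Fin.last (N + N)) * X.pull Fin.castSucc
            (∏ i ∈ univ.erase u, X.edge w (Fin.castAdd N i) (Fin.natAdd N (τ i))) := by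
        rw [← Finset.mul_prod_erase univ _ (Finset.mem_univ u), map_prod]
        congr 1
        · rw [gl_cast, Φ_some, if_pos huv, gr_last]
        · refine Finset.prod_congr rfl fun i hi => ?_
          have hiu : τ i ≠ v := by
            intro h1
            apply Finset.ne_of_mem_erase hi
            rw [hu, ← h1, Equiv.symm_apply_apply]
          rw [gl_cast, Φ_some, if_neg hiu, gr_cast, pull_edge]
      rw [e3, edge_symm X h.symm (Fin.last (N + N))]
      have e4 : X.edge w (Fin.castAdd N u).castSucc (Fin.last (N + N)) * X.pull Fin.castSucc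
            (∏ i ∈ univ.erase u, X.edge w (Fin.castAdd N i) (Fin.natAdd N (τ i))) *
            X.edge w (Fin.natAdd N v).castSucc (Fin.last (N + N)) =
          X.pull Fin.castSucc
            (∏ i ∈ univ.erase u, X.edge w (Fin.castAdd N i) (Fin.natAdd N (τ i))) *
          (X.edge w (Fin.castAdd N u).castSucc (Fin.last (N + N)) *
            X.edge w (Fin.natAdd N v).castSucc (Fin.last (N + N))) := by ring
      rw [e4, push_compose X h, ← Finset.mul_prod_erase univ _ (Finset.mem_univ u), huv, mul_comm]
  rw [e1, map_sum, Finset.sum_congr rfl fun x _ => e2 x, Fintype.sum_prod_type, Fintype.sum_option]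
  simp only [if_true, reduceCtorEq, if_false, one_smul]
  rw [← Finset.smul_sum, Finset.sum_const, Finset.card_univ, Fintype.card_fin, add_smul,
    ← Nat.cast_smul_eq_nsmul ℚ]
  rfl

end Pool.Agent.K3h91.HP
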