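import Pool.Agent.K3h46.HP.Stm4

/-!
# A correspondence whose symmetric power vanishes is algebraic
-/

set_option autoImplicit false

open Finset

namespace Pool.Agent.K3h91.HP

open Pool.Agent.K3h46.HP

section alg

variable (X : Powers) (g : X.A 2)

/-- the permanent whose rows are powers of `g` -/
def PP {r : ℕ} (m : Fin r → ℕ) : X.A (r + r) := X.rowPer (fun i => X.iter g (m i))

/-- a relation between the permanents with `r` rows, of degree at most `D`, such that the sum of the
top coefficients is positive -/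
def Rel (r D : ℕ) : Prop :=
  ∃ (ι : Type) (_ : Fintype ι) (m : ι → Fin r → ℕ) (c : ι → ℚ),
    (∀ j, ∑ i, m j i ≤ D) ∧ (0 < ∑ j, (if ∑ i, m j i = D then c j else 0)) ∧
    ∑ j, c j • PP X g (m j) = 0

variable {X g}

theorem glue_PP (hrow : StmRow)
    (hcomp : ∀ a b : ℕ, X.comp (X.iter g a) (X.iter g b) = X.iter g (a + b + 1))
    {t : ℕ → ℚ} (ht : ∀ a, X.tr (X.iter g a) = algebraMap ℚ (X.A 0) (t a)) {r : ℕ}
    (m : Fin (r + 1) → ℕ) :
    X.push (r + r) (X.pull (gluePerm r) (PP X g m)) =
      t (m (Fin.last r)) • PP X g (fun i : Fin r => m i.castSucc) +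
      ∑ u : Fin r, PP X g (Function.update (fun i : Fin r => m i.castSucc) u
        (m u.castSucc + m (Fin.last r) + 1)) := by
  unfold PP
  have h := hrow X r (fun i => X.iter g (m i))
  rw [h, ht, AlgHom.commutes, ← Algebra.smul_def]
  congr 1
  refine Finset.sum_congr rfl fun u _ => ?_
  rw [hcomp]
  congr 1
  funext i
  by_cases hi : i = u
  · subst hi
    rw [Function.update_self, Function.update_self]
  · rw [Function.update_of_ne hi, Function.update_of_ne hi]

theorem sum_upd {r : ℕ} (m : Fin (r + 1) → ℕ) (u : Fin r) :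
    ∑ i, Function.update (fun i : Fin r => m i.castSucc) u
      (m u.castSucc + m (Fin.last r) + 1) i = ∑ i, m i + 1 := by
  rw [Finset.sum_update_of_mem (Finset.mem_univ u), Fin.sum_univ_castSucc,
    Finset.sum_eq_sum_sdiff_singleton_add (Finset.mem_univ u) (fun i : Fin r => m i.castSucc)]
  ring

/-- the exponents of the new relation -/
def nm {ι : Type} {r : ℕ} (m : ι → Fin (r + 1) → ℕ) (x : ι × Option (Fin r)) : Fin r → ℕ :=
  match x.2 with
  | none => fun i => m x.1 i.castSucc
  | some u => Function.update (fun i : Fin r => m x.1 i.castSucc) u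
      (m x.1 u.castSucc + m x.1 (Fin.last r) + 1)

/-- the coefficients of the new relation -/
def nc {ι : Type} {r : ℕ} (t : ℕ → ℚ) (m : ι → Fin (r + 1) → ℕ) (c : ι → ℚ)
    (x : ι × Option (Fin r)) : ℚ :=
  match x.2 with
  | none => c x.1 * t (m x.1 (Fin.last r))
  | some _ => c x.1

theorem Rel.step (hrow : StmRow)
    (hcomp : ∀ a b : ℕ, X.comp (X.iter g a) (X.iter g b) = X.iter g (a + b + 1))
    {t : ℕ → ℚ} (ht : ∀ a, X.tr (X.iter g a) = algebraMap ℚ (X.A 0) (t a)) {r D : ℕ}
    (hr : 0 < r) (h : Rel X g (r + 1) D) : Rel X g r (D + 1) := by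
  obtain ⟨ι, _, m, c, h1, h2, h3⟩ := h
  have hs : ∀ j, ∑ i : Fin r, m j i.castSucc ≤ ∑ i, m j i := by
    intro j
    rw [Fin.sum_univ_castSucc (f := m j)]
    exact Nat.le_add_right _ _
  refine ⟨ι × Option (Fin r), inferInstance, nm m, nc t m c, ?_, ?_, ?_⟩
  · rintro ⟨j, _ | u⟩
    · exact (hs j).trans ((h1 j).trans (Nat.le_succ D))
    · show ∑ i, Function.update (fun i : Fin r => m j i.castSucc) u
        (m j u.castSucc + m j (Fin.last r) + 1) i ≤ D + 1
      rw [sum_upd]
      exact Nat.succ_le_succ (h1 j)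
  · have e : ∀ j, ∑ y : Option (Fin r),
        (if ∑ i, nm m (j, y) i = D + 1 then nc t m c (j, y) else 0) =
        r * (if ∑ i, m j i = D then c j else 0) := by
      intro j
      rw [Fintype.sum_option]
      have e1 : ¬ (∑ i, nm m (j, none) i = D + 1) := by
        have := (hs j).trans (h1 j)
        show ¬ (∑ i : Fin r, m j i.castSucc = D + 1)
        omega
      rw [if_neg e1, zero_add]
      have e2 : ∀ u : Fin r, (if ∑ i, nm m (j, some u) i = D + 1 then nc t m c (j, some u)
          else 0) = (if ∑ i, m j i = D then c j else 0) := by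
        intro u
        have e3 : ∑ i, nm m (j, some u) i = ∑ i, m j i + 1 := sum_upd (m j) u
        rw [e3]
        simp only [Nat.add_right_cancel_iff]
        rfl
      rw [Finset.sum_congr rfl fun u _ => e2 u, Finset.sum_const, Finset.card_univ,
        Fintype.card_fin, nsmul_eq_mul]
    rw [Fintype.sum_prod_type, Finset.sum_congr rfl fun j _ => e j, ← Finset.mul_sum]
    exact mul_pos (by exact_mod_cast hr) h2
  · have e : ∀ j, ∑ y : Option (Fin r), nc t m c (j, y) • PP X g (nm m (j, y)) =
        c j • X.push (r + r) (X.pull (gluePerm r) (PP X g (m j))) := by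
      intro j
      rw [Fintype.sum_option, glue_PP hrow hcomp ht, smul_add, smul_smul, Finset.smul_sum]
      rfl
    rw [Fintype.sum_prod_type, Finset.sum_congr rfl fun j _ => e j]
    have h4 := congrArg (fun x => X.push (r + r) (X.pull (gluePerm r) x)) h3
    simp only [map_sum, map_zero, map_smul] at h4
    exact h4

theorem PP_one (m : Fin 1 → ℕ) : PP X g m = X.iter g (m 0) := by
  unfold PP Powers.rowPer
  rw [Fintype.sum_unique]
  rw [Fintype.prod_unique]
  unfold Powers.edge
  have e : (![Fin.castAdd 1 (default : Fin 1), Fin.natAdd 1 ((default : Equiv.Perm (Fin 1)) default)] :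
      Fin 2 → Fin (1 + 1)) = fun i : Fin 2 => i := by
    funext i
    fin_cases i <;> rfl
  rw [e]
  exact X.pull_id 2 _

end alg

theorem t_Alg : StmAlg := by
  intro hrow X hpt g hcomp N hN
  have h0 : ∀ a, ∃ q : ℚ, X.tr (X.iter g a) = algebraMap ℚ (X.A 0) q := fun a => hpt _
  choose t ht using h0
  have hrel : ∀ j r : ℕ, r + j = N + 1 → 1 ≤ r → Rel X g r j := by
    intro j
    induction j with
    | zero =>
      intro r hr _
      have hr' : r = N + 1 := hr
      subst hr'
      refine ⟨Unit, inferInstance, fun _ _ => 0, fun _ => 1, ?_, ?_, ?_⟩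
      · intro _
        simp
      · simp
      · rw [Fintype.sum_unique, one_smul]
        exact hN
    | succ j ih =>
      intro r hr h1
      exact Rel.step hrow hcomp ht h1 (ih (r + 1) (by omega) (by omega))
  obtain ⟨ι, _, m, c, h1, h2, h3⟩ := hrel N 1 (by omega) le_rfl
  have hm : ∀ j, ∑ i, m j i = m j 0 := fun j => Fintype.sum_unique _
  simp only [hm] at h1 h2
  have h4 : ∑ j, c j • X.iter g (m j 0) = 0 := by
    rw [← h3]
    exact Finset.sum_congr rfl fun j _ => by rw [PP_one]
  set C : ℕ → ℚ := fun k => ∑ j, (if m j 0 = k then c j else 0) with hC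
  have h5 : ∑ k ∈ Finset.range (N + 1), C k • X.iter g k = 0 := by
    rw [← h4]
    simp only [hC, Finset.sum_smul]
    rw [Finset.sum_comm]
    refine Finset.sum_congr rfl fun j _ => ?_
    simp only [ite_smul, zero_smul]
    rw [Finset.sum_ite_eq, if_pos (Finset.mem_range.2 (Nat.lt_succ_of_le (h1 j)))]
  rw [Finset.sum_range_succ, Finset.sum_range] at h5
  have h6 : C N ≠ 0 := ne_of_gt h2
  refine ⟨fun k => - (C N)⁻¹ * C k, ?_⟩
  have h7 : ∑ k : Fin N, (-(C N)⁻¹ * C k) • X.iter g k =
      -((C N)⁻¹ • ∑ k : Fin N, C k • X.iter g k) := by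
    rw [Finset.smul_sum, ← Finset.sum_neg_distrib]
    refine Finset.sum_congr rfl fun k _ => ?_
    rw [smul_smul, ← neg_smul, neg_mul]
  rw [h7, eq_neg_of_add_eq_zero_left h5, smul_neg, neg_neg, smul_smul, inv_mul_cancel₀ h6, one_smul]

end Pool.Agent.K3h91.HP
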